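import Pool.Agent.H72.G4.Fill
import Pool.Agent.H55.G4.Ext

/-!
# Cuts for one deleted vertex with four neighbours, from the finite check
-/

set_option autoImplicit false

namespace Pool.Agent.H42.G4

open Relation Pool.Agent.H13.DA Pool.Agent.H72.G4 Pool.Agent.H55.G4

variable {V : Type*} {D : V → V → Prop} {v : V}

theorem cuts_of {O Q : Fin 3 → V → V → Prop} (hQ : ∀ i, STO (Q i))
    (h : ∀ i x y, x ≠ v → y ≠ v → (Q i x y ↔ O i x y)) (h1 : ∀ x, D x v → Ex Q x v)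
    (h2 : ∀ x, D v x → Ex Q v x) : Cuts D v O := by
  refine ⟨fun i x => Q i x v, ?_, ?_, ?_⟩
  · intro i x y hx hy hyv hxy
    exact (hQ i).tr _ _ _ ((h i x y hx hy).2 hxy) hyv
  · intro x hx
    obtain ⟨i, g1, g2⟩ := h1 x hx
    exact ⟨i, (hQ i).asymm g1, g2⟩
  · intro x hx
    obtain ⟨i, g1, g2⟩ := h2 x hx
    exact ⟨i, g1, fun j hj => (hQ j).asymm (g2 j hj)⟩

/-- names of the five vertices -/
def nm (x1 x2 x3 x4 v : V) : ℕ → V
  | 0 => x1
  | 1 => x2
  | 2 => x3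
  | 3 => x4
  | _ => v

theorem nm_inj {x1 x2 x3 x4 v : V} (h12 : x1 ≠ x2) (h13 : x1 ≠ x3) (h14 : x1 ≠ x4) (h1 : x1 ≠ v)
    (h23 : x2 ≠ x3) (h24 : x2 ≠ x4) (h2 : x2 ≠ v) (h34 : x3 ≠ x4) (h3 : x3 ≠ v) (h4 : x4 ≠ v) :
    ∀ x y, x < 4 + 1 → y < 4 + 1 → nm x1 x2 x3 x4 v x = nm x1 x2 x3 x4 v y → x = y := by
  intro x y hx hy h
  interval_cases x <;> interval_cases y <;> simp only [nm] at h <;>
    first | rfl | exact absurd h ‹_› | exact absurd h.symm ‹_›

theorem chk_P5 : chk [(0,0,0,0),(1,0,0,0),(3,0,0,0),(4,0,0,0)] [St.free 5 10] = true := by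
  decide +kernel

theorem chk_C4 : chk [(0,0,0,0),(1,0,0,0),(1,2,0,0),(0,5,0,0)] [St.free 1 14] = true := by
  decide +kernel

private lemma lt2 {m x : ℕ} (h : m < 4) (hx : m.testBit x = true) : x < 2 := tb_lt (N := 2) h hx
private lemma lt3 {m x : ℕ} (h : m < 8) (hx : m.testBit x = true) : x < 3 := tb_lt (N := 3) h hx
private lemma lt1 {m x : ℕ} (h : m < 2) (hx : m.testBit x = true) : x < 1 := tb_lt (N := 1) h hx
private lemma lt0 {x : ℕ} {p : Prop} (hx : (0 : ℕ).testBit x = true) : p := by simp at hx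

/-- cuts for P5 -/
theorem cuts_P5 {x1 x2 x3 x4 : V} (h12 : x1 ≠ x2) (h13 : x1 ≠ x3) (h14 : x1 ≠ x4) (h1 : x1 ≠ v)
    (h23 : x2 ≠ x3) (h24 : x2 ≠ x4) (h2 : x2 ≠ v) (h34 : x3 ≠ x4) (h3 : x3 ≠ v) (h4 : x4 ≠ v)
    (hin : ∀ x, D x v → x = x1 ∨ x = x3) (hout : ∀ x, D v x → x = x2 ∨ x = x4)
    (O : Fin 3 → V → V → Prop) (hO : ∀ i, STO (O i)) (e12 : Ex O x1 x2) (e13 : Ex O x1 x3)
    (e23 : Ex O x2 x3) (e34 : Ex O x3 x4) : Cuts D v O := by
  obtain ⟨Q, q1, q2, q3⟩ := conf [(0,0,0,0),(1,0,0,0),(3,0,0,0),(4,0,0,0)] [St.free 5 10] chk_P5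
    (nm x1 x2 x3 x4 v) (nm_inj h12 h13 h14 h1 h23 h24 h2 h34 h3 h4) trivial O hO (by
      refine ⟨fun x hx => lt0 hx, fun x hx => lt0 hx, fun x hx => lt0 hx, fun x hx => lt0 hx,
        fun x hx => ?_, fun x hx => lt0 hx, fun x hx => lt0 hx, fun x hx => lt0 hx,
        fun x hx => ?_, fun x hx => lt0 hx, fun x hx => lt0 hx, fun x hx => lt0 hx,
        fun x hx => ?_, fun x hx => lt0 hx, fun x hx => lt0 hx, fun x hx => lt0 hx, trivial⟩
      · have h := lt1 (by norm_num) hx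
        interval_cases x
        exact ⟨by norm_num, e12⟩
      · have h := lt2 (by norm_num) hx
        interval_cases x
        · exact ⟨by norm_num, e13⟩
        · exact ⟨by norm_num, e23⟩
      · have h := lt3 (by norm_num) hx
        interval_cases x
        · exact absurd hx (by decide)
        · exact absurd hx (by decide)
        · exact ⟨by norm_num, e34⟩)
  obtain ⟨q3, q4, -⟩ := q3
  refine cuts_of q1 ?_ ?_ ?_
  · intro i x y hx hy
    refine q2 i x y fun k hk1 hk2 => ?_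
    have : k = 4 := by
      have e1 : 4 ≤ k := hk1
      have e2 : k < 4 + 1 := hk2
      omega
    subst this
    exact ⟨hx, hy⟩
  · intro x hx
    rcases hin x hx with rfl | rfl
    · exact q3 0 (by decide) (by decide)
    · exact q3 2 (by decide) (by decide)
  · intro x hx
    rcases hout x hx with rfl | rfl
    · exact q4 1 (by decide) (by decide)
    · exact q4 3 (by decide) (by decide)

/-- cuts for C4 -/
theorem cuts_C4 {x1 x2 x3 x4 : V} (h12 : x1 ≠ x2) (h13 : x1 ≠ x3) (h14 : x1 ≠ x4) (h1 : x1 ≠ v)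
    (h23 : x2 ≠ x3) (h24 : x2 ≠ x4) (h2 : x2 ≠ v) (h34 : x3 ≠ x4) (h3 : x3 ≠ v) (h4 : x4 ≠ v)
    (hin : ∀ x, D x v → x = x1) (hout : ∀ x, D v x → x = x2 ∨ x = x3 ∨ x = x4)
    (O : Fin 3 → V → V → Prop) (hO : ∀ i, STO (O i)) (e12 : Ex O x1 x2) (e13 : Ex O x1 x3)
    (e32 : Ex O x3 x2) (e43 : Ex O x4 x3) (e41 : Ex O x4 x1) : Cuts D v O := by
  obtain ⟨Q, q1, q2, q3⟩ := conf [(0,0,0,0),(1,0,0,0),(1,2,0,0),(0,5,0,0)] [St.free 1 14] chk_C4
    (nm x1 x2 x3 x4 v) (nm_inj h12 h13 h14 h1 h23 h24 h2 h34 h3 h4) trivial O hO (by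
      refine ⟨fun x hx => lt0 hx, fun x hx => lt0 hx, fun x hx => lt0 hx, fun x hx => lt0 hx,
        fun x hx => ?_, fun x hx => lt0 hx, fun x hx => lt0 hx, fun x hx => lt0 hx,
        fun x hx => ?_, fun x hx => ?_, fun x hx => lt0 hx, fun x hx => lt0 hx,
        fun x hx => lt0 hx, fun x hx => ?_, fun x hx => lt0 hx, fun x hx => lt0 hx, trivial⟩
      · have h := lt1 (by norm_num) hx
        interval_cases x
        exact ⟨by norm_num, e12⟩
      · have h := lt1 (by norm_num) hx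
        interval_cases x
        exact ⟨by norm_num, e13⟩
      · have h := lt2 (by norm_num) hx
        interval_cases x
        · exact absurd hx (by decide)
        · exact ⟨by norm_num, e32⟩
      · have h := lt3 (by norm_num) hx
        interval_cases x
        · exact ⟨by norm_num, e41⟩
        · exact absurd hx (by decide)
        · exact ⟨by norm_num, e43⟩)
  obtain ⟨q3, q4, -⟩ := q3
  refine cuts_of q1 ?_ ?_ ?_
  · intro i x y hx hy
    refine q2 i x y fun k hk1 hk2 => ?_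
    have : k = 4 := by
      have e1 : 4 ≤ k := hk1
      have e2 : k < 4 + 1 := hk2
      omega
    subst this
    exact ⟨hx, hy⟩
  · intro x hx
    rw [hin x hx]
    exact q3 0 (by decide) (by decide)
  · intro x hx
    rcases hout x hx with rfl | rfl | rfl
    · exact q4 1 (by decide) (by decide)
    · exact q4 2 (by decide) (by decide)
    · exact q4 3 (by decide) (by decide)

end Pool.Agent.H42.G4
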