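import Pool.Agent.H42.G4.Cuts4

/-!
# The configurations P5 and C4 are reducible
-/

set_option autoImplicit false

namespace Pool.Agent.H42.G4

open Relation Pool.Agent.H13.DA Pool.Agent.H72.G4 Pool.Agent.H55.G4

variable {V : Type*} [DecidableEq V] {T : Finset (V × V × V)} {D : V → V → Prop} {a b c : V}

/-- **P5**: link `x1` in, `x2` out, quad, `x3` in, `x4` out, quad; `x1 > x2`, `x3 > x4`. -/
theorem red_P5 (hF : FanT V) (hM : MCw T D a b c) (hT : Ts T D a b c) {v x1 x2 x3 x4 : V}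
    (hv : ¬ Tr a b c v) (hg : Good T D v)
    (hN : ∀ u, Ar D v u ↔ u = x1 ∨ u = x2 ∨ u = x3 ∨ u = x4)
    (d1 : D x1 v) (d2 : D v x2) (d3 : D x3 v) (d4 : D v x4) (r12 : D x1 x2) (r34 : D x3 x4)
    (n13 : ¬ Ar D x1 x3) (n14 : ¬ Ar D x1 x4) (n23 : ¬ Ar D x2 x3) (n24 : ¬ Ar D x2 x4) :
    False := by
  have cx := hT.pl.disc.cx
  have irr : ∀ x, ¬ D x x := fun x h => hT.pl.asymm x x h h
  have as := hT.pl.asymm
  have tri := hT.pl.tri
  have e1 : x1 ≠ v := by rintro rfl; exact irr _ d1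
  have e2 : x2 ≠ v := by rintro rfl; exact irr _ d2
  have e3 : x3 ≠ v := by rintro rfl; exact irr _ d3
  have e4 : x4 ≠ v := by rintro rfl; exact irr _ d4
  have e12 : x1 ≠ x2 := by rintro rfl; exact irr _ r12
  have e34 : x3 ≠ x4 := by rintro rfl; exact irr _ r34
  have e13 : x1 ≠ x3 := by rintro rfl; exact n23 (Or.inr r12)
  have e14 : x1 ≠ x4 := by rintro rfl; exact n13 (Or.inr r34)
  have e23 : x2 ≠ x3 := by rintro rfl; exact n13 (Or.inl r12)
  have e24 : x2 ≠ x4 := by rintro rfl; exact n23 (Or.inr r34)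
  have hin : ∀ x, D x v → x = x1 ∨ x = x3 := by
    intro x hx
    rcases (hN x).1 (Or.inr hx) with rfl | rfl | rfl | rfl
    · exact Or.inl rfl
    · exact absurd hx (as _ _ d2)
    · exact Or.inr rfl
    · exact absurd hx (as _ _ d4)
  have hout : ∀ x, D v x → x = x2 ∨ x = x4 := by
    intro x hx
    rcases (hN x).1 (Or.inl hx) with rfl | rfl | rfl | rfl
    · exact absurd hx (as _ _ d1)
    · exact Or.inl rfl
    · exact absurd hx (as _ _ d3)
    · exact Or.inr rfl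
  -- no path `x3 → o → x1` or `x3 → o → x2` outside `v`
  have key : ∀ p o, p = x1 ∨ p = x2 → o ≠ v → D x3 o → D o p → False := by
    rintro p o hp ho h1 h2
    have hp' : Ar D v p ∧ p ≠ x3 ∧ ¬ Ar D p x3 := by
      rcases hp with rfl | rfl
      · exact ⟨Or.inr d1, e13, n13⟩
      · exact ⟨Or.inl d2, e23, n23⟩
    obtain ⟨k1, k2, k3⟩ := hp'
    rcases good_common hT hg k1 (Or.inr d3) k2 k3 ho (Or.inr h2) (Or.inl h1) with h | h | h
    · rcases (hN o).1 h with rfl | rfl | rfl | rfl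
      · exact n13 (Or.inr h1)
      · exact n23 (Or.inr h1)
      · exact irr _ h1
      · rcases hp with rfl | rfl
        · exact n14 (Or.inr h2)
        · exact n24 (Or.inr h2)
    · exact as _ _ d3 h.2.1
    · exact as _ _ h2 h.2.2.1
  let A : V → V → Prop := fun x y => (x = x1 ∨ x = x2) ∧ y = x3
  refine del_fill hF hM hT (v := v) (p := x3) (A := A) hv ⟨x1, Or.inr d1⟩ (Or.inr d3)
    ?_ ?_ ?_ ?_
  · rintro x y ⟨rfl | rfl, rfl⟩
    · exact Or.inr ⟨rfl, Or.inr d1, e13⟩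
    · exact Or.inr ⟨rfl, Or.inl d2, e23⟩
  · rintro x y (h | ⟨h, rfl⟩) (h' | ⟨h', h''⟩)
    · exact as _ _ h.1 h'.1
    · subst h''
      rcases h' with rfl | rfl
      · exact n13 (Or.inr h.1)
      · exact n23 (Or.inr h.1)
    · rcases h with rfl | rfl
      · exact n13 (Or.inr h'.1)
      · exact n23 (Or.inr h'.1)
    · rcases h' with h' | h'
      · exact e13 h'.symm
      · exact e23 h'.symm
  · have new : ∀ p o, A p x3 → Fil D v A x3 o → Fil D v A o p → False := by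
      rintro p o ⟨hp, -⟩ (h1 | ⟨h1, -⟩) (h2 | ⟨-, h2⟩)
      · exact key p o hp h1.2.2 h1.1 h2.1
      · rcases hp with rfl | rfl
        · exact e13 h2
        · exact e23 h2
      · rcases h1 with h1 | h1
        · exact e13 h1.symm
        · exact e23 h1.symm
      · rcases h1 with h1 | h1
        · exact e13 h1.symm
        · exact e23 h1.symm
    rintro x y z h1 h2 h3
    rcases h1 with k1 | ⟨k1, rfl⟩
    · rcases h2 with k2 | ⟨k2, rfl⟩
      · rcases h3 with k3 | ⟨k3, rfl⟩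
        · exact tri _ _ _ k1.1 k2.1 k3.1
        · exact new z y ⟨k3, rfl⟩ (Or.inl k1) (Or.inl k2)
      · exact new y x ⟨k2, rfl⟩ h3 (Or.inl k1)
    · exact new x z ⟨k1, rfl⟩ h2 h3
  · intro O hO hE
    have f12 : Ex O x1 x2 := hE _ _ (Or.inl ⟨r12, e1, e2⟩)
    have f34 : Ex O x3 x4 := hE _ _ (Or.inl ⟨r34, e3, e4⟩)
    have f13 : Ex O x1 x3 := hE _ _ (Or.inr ⟨Or.inl rfl, rfl⟩)
    have f23 : Ex O x2 x3 := hE _ _ (Or.inr ⟨Or.inr rfl, rfl⟩)
    exact cuts_P5 e12 e13 e14 e1 e23 e24 e2 e34 e3 e4 hin hout O hO f12 f13 f23 f34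

/-- **C4**: link `x1` in, `x2`, `x3`, `x4` out, quad; `x1 > x2`, `x3 > x2`, `x4 > x3`. The hypothesis
`hd` says that no dummy lies at the corner `x1 v x3`. -/
theorem red_C4 (hF : FanT V) (hM : MCw T D a b c) (hT : Ts T D a b c) {v x1 x2 x3 x4 : V}
    (hv : ¬ Tr a b c v) (hg : Good T D v)
    (hN : ∀ u, Ar D v u ↔ u = x1 ∨ u = x2 ∨ u = x3 ∨ u = x4)
    (d1 : D x1 v) (d2 : D v x2) (d3 : D v x3) (d4 : D v x4) (r12 : D x1 x2) (r32 : D x3 x2)
    (r43 : D x4 x3) (n13 : ¬ Ar D x1 x3) (n14 : ¬ Ar D x1 x4) (n24 : ¬ Ar D x2 x4)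
    (hd : ∀ d, ¬ Re D d → Adj T d v → Adj T d x1 → ¬ Adj T d x3) : False := by
  have cx := hT.pl.disc.cx
  have irr : ∀ x, ¬ D x x := fun x h => hT.pl.asymm x x h h
  have as := hT.pl.asymm
  have tri := hT.pl.tri
  have e1 : x1 ≠ v := by rintro rfl; exact irr _ d1
  have e2 : x2 ≠ v := by rintro rfl; exact irr _ d2
  have e3 : x3 ≠ v := by rintro rfl; exact irr _ d3
  have e4 : x4 ≠ v := by rintro rfl; exact irr _ d4
  have e12 : x1 ≠ x2 := by rintro rfl; exact irr _ r12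
  have e34 : x3 ≠ x4 := by rintro rfl; exact irr _ r43
  have e13 : x1 ≠ x3 := by rintro rfl; exact n14 (Or.inr r43)
  have e14 : x1 ≠ x4 := by rintro rfl; exact n13 (Or.inl r43)
  have e23 : x2 ≠ x3 := by rintro rfl; exact irr _ r32
  have e24 : x2 ≠ x4 := by rintro rfl; exact n14 (Or.inl r12)
  have hin : ∀ x, D x v → x = x1 := by
    intro x hx
    rcases (hN x).1 (Or.inr hx) with rfl | rfl | rfl | rfl
    · rfl
    · exact absurd hx (as _ _ d2)
    · exact absurd hx (as _ _ d3)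
    · exact absurd hx (as _ _ d4)
  have hout : ∀ x, D v x → x = x2 ∨ x = x3 ∨ x = x4 := by
    intro x hx
    rcases (hN x).1 (Or.inl hx) with rfl | rfl | rfl | rfl
    · exact absurd hx (as _ _ d1)
    · exact Or.inl rfl
    · exact Or.inr (Or.inl rfl)
    · exact Or.inr (Or.inr rfl)
  -- no path `x3 → o → x1`
  have key1 : ∀ o, o ≠ v → D x3 o → D o x1 → False := by
    intro o ho h1 h2
    rcases hg x1 x3 o (Or.inr d1) (Or.inl d3) e13 n13 ho (Or.inr h2) (Or.inl h1) with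
      h | ⟨d, g1, g2, g3, g4, g5⟩
    · rcases (hN o).1 h with rfl | rfl | rfl | rfl
      · exact irr _ h2
      · exact as _ _ r12 h2
      · exact irr _ h1
      · exact as _ _ r43 h1
    · exact hd d g1 g2 g3 g4
  -- no path `x1 → o → x4`
  have key2 : ∀ o, o ≠ v → D x1 o → D o x4 → False := by
    intro o ho h1 h2
    rcases good_common hT hg (Or.inl d4) (Or.inr d1) e14.symm (fun h => n14 (ar_symm h)) ho
      (Or.inr h2) (Or.inl h1) with h | h | h
    · rcases (hN o).1 h with rfl | rfl | rfl | rfl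
      · exact irr _ h1
      · exact n24 (Or.inl h2)
      · exact n13 (Or.inl h1)
      · exact irr _ h2
    · exact as _ _ d4 h.1
    · exact as _ _ h2 h.2.2.1
  let A : V → V → Prop := fun x y => (x = x1 ∧ y = x3) ∨ (x = x4 ∧ y = x1)
  have nA : ∀ x y, A x y → ¬ Ar D x y := by
    rintro x y (⟨rfl, rfl⟩ | ⟨rfl, rfl⟩)
    · exact n13
    · exact fun h => n14 (ar_symm h)
  refine del_fill hF hM hT (v := v) (p := x1) (A := A) hv ⟨x1, Or.inr d1⟩ (Or.inr d1)
    ?_ ?_ ?_ ?_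
  · rintro x y (⟨rfl, rfl⟩ | ⟨rfl, rfl⟩)
    · exact Or.inl ⟨rfl, Or.inl d3, e13.symm⟩
    · exact Or.inr ⟨rfl, Or.inl d4, e14.symm⟩
  · rintro x y (h | h) (h' | h')
    · exact as _ _ h.1 h'.1
    · exact nA _ _ h' (Or.inr h.1)
    · exact nA _ _ h (Or.inr h'.1)
    · rcases h with ⟨rfl, rfl⟩ | ⟨rfl, rfl⟩
      · rcases h' with ⟨h, -⟩ | ⟨h, -⟩
        · exact e13 h.symm
        · exact e34 h
      · rcases h' with ⟨-, h⟩ | ⟨h, -⟩
        · exact e34 h.symm
        · exact e14 h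
  · have new1 : ∀ o, Fil D v A x3 o → Fil D v A o x1 → False := by
      rintro o (h1 | ⟨h1, -⟩ | ⟨h1, -⟩) h2
      · rcases h2 with h2 | ⟨-, h2⟩ | ⟨h2, -⟩
        · exact key1 o h1.2.2 h1.1 h2.1
        · exact e13 h2
        · subst h2
          exact as _ _ r43 h1.1
      · exact e13 h1.symm
      · exact e34 h1
    have new2 : ∀ o, Fil D v A x1 o → Fil D v A o x4 → False := by
      rintro o (h1 | ⟨-, h1⟩ | ⟨h1, -⟩) h2
      · rcases h2 with h2 | ⟨-, h2⟩ | ⟨-, h2⟩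
        · exact key2 o h1.2.2 h1.1 h2.1
        · exact e34 h2.symm
        · exact e14 h2.symm
      · subst h1
        rcases h2 with h2 | ⟨-, h2⟩ | ⟨-, h2⟩
        · exact as _ _ r43 h2.1
        · exact e34 h2.symm
        · exact e14 h2.symm
      · exact e14 h1
    have new : ∀ x y z, A x y → Fil D v A y z → Fil D v A z x → False := by
      rintro x y z (⟨rfl, rfl⟩ | ⟨rfl, rfl⟩) h2 h3
      · exact new1 z h2 h3
      · exact new2 z h2 h3
    rintro x y z h1 h2 h3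
    rcases h1 with k1 | k1
    · rcases h2 with k2 | k2
      · rcases h3 with k3 | k3
        · exact tri _ _ _ k1.1 k2.1 k3.1
        · exact new z x y k3 (Or.inl k1) (Or.inl k2)
      · exact new y z x k2 h3 (Or.inl k1)
    · exact new x y z k1 h2 h3
  · intro O hO hE
    have f12 : Ex O x1 x2 := hE _ _ (Or.inl ⟨r12, e1, e2⟩)
    have f32 : Ex O x3 x2 := hE _ _ (Or.inl ⟨r32, e3, e2⟩)
    have f43 : Ex O x4 x3 := hE _ _ (Or.inl ⟨r43, e4, e3⟩)
    have f13 : Ex O x1 x3 := hE _ _ (Or.inr (Or.inl ⟨rfl, rfl⟩))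
    have f41 : Ex O x4 x1 := hE _ _ (Or.inr (Or.inr ⟨rfl, rfl⟩))
    exact cuts_C4 e12 e13 e14 e1 e23 e24 e2 e34 e3 e4 hin hout O hO f12 f13 f32 f43 f41

end Pool.Agent.H42.G4
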